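import Pool.Agent.Helper70.GB.Types

/-!
# MP_02f2ca_gt : values of the coboundary of a pattern set (module A10a)
-/

open Set MeasureTheory Filter Topology

namespace GB

private theorem Lf_add' (a₁ a₂ : ℝ) (v v' : ℤ × ℤ) : Lf a₁ a₂ (v + v') = Lf a₁ a₂ v + Lf a₁ a₂ v' := by
  simp only [Lf, Prod.fst_add, Prod.snd_add]
  push_cast
  ring

private theorem Lf_sub' (a₁ a₂ : ℝ) (v v' : ℤ × ℤ) : Lf a₁ a₂ (v - v') = Lf a₁ a₂ v - Lf a₁ a₂ v' := by
  simp only [Lf, Prod.fst_sub, Prod.snd_sub]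
  push_cast
  ring

private theorem V_anti_aux {a₁ a₂ : ℝ} {S N : ℕ} {V Z : ℕ → Set ℝ} (hS : SeedSys a₁ a₂ S N V Z)
    {k k' : ℕ} (h : k ≤ k') : V k' ⊆ V k := by
  induction h with
  | refl => exact subset_rfl
  | step _ ih => exact (subset_closure.trans (hS.Vclosure _)).trans ih

/-- Two seeds related by a short lattice vector are equal. -/
private theorem seed_unique_aux {a₁ a₂ : ℝ} {S N : ℕ} {V Z : ℕ → Set ℝ}
    (hS : SeedSys a₁ a₂ S N V Z) {k k' : ℕ} {z z' : ℝ} (hz : z ∈ Z k) (hz' : z' ∈ Z k')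
    {v v' : ℤ × ℤ} (h1 : |v.1 - v'.1| ≤ S) (h2 : |v.2 - v'.2| ≤ S)
    (h : z + Lf a₁ a₂ v = z' + Lf a₁ a₂ v') : z = z' ∧ v = v' := by
  have e1 : z' = z + Lf a₁ a₂ (v - v') := by rw [Lf_sub']; linarith
  have e2 : z = z' + Lf a₁ a₂ (v' - v) := by rw [Lf_sub']; linarith
  have s1 : InSq S (v - v') := ⟨by simpa using h1, by simpa using h2⟩
  have s2 : InSq S (v' - v) := by
    refine ⟨?_, ?_⟩
    · simpa [abs_sub_comm] using h1
    · simpa [abs_sub_comm] using h2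
  have hvv : v = v' := by
    by_contra hne
    rcases lt_trichotomy k k' with hk | hk | hk
    · apply hS.far k z (subset_closure hz) (v - v') s1
      rw [← e1]
      exact V_anti_aux hS hk (hS.ZV k' (subset_closure hz'))
    · subst hk
      apply hS.sep k z (subset_closure hz) (v - v') (sub_ne_zero.mpr hne) s1
      rw [← e1]
      exact subset_closure hz'
    · apply hS.far k' z' (subset_closure hz') (v' - v) s2
      rw [← e2]
      exact V_anti_aux hS hk (hS.ZV k (subset_closure hz))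
  subst hvv
  exact ⟨by linarith, rfl⟩

theorem Pat_values (a₁ a₂ : ℝ) (S N H K : ℕ) (V Z : ℕ → Set ℝ) (hS : SeedSys a₁ a₂ S N V Z)
    (hH : 2 * H + 2 ≤ S) (hKH : K ≤ H) (lo hi : ℤ → ℤ → ℤ)
    (hlo0 : ∀ c r, 0 ≤ lo c r) (hlt : ∀ c r, lo c r < hi c r) (hhi : ∀ c r, hi c r ≤ H)
    (G : Set ℝ)
    (hG : G = Pat a₁ a₂ N H Z (fun c v => |v.2| ≤ K ∧ lo c v.2 < v.1 ∧ v.1 ≤ hi c v.2)) :
    (∀ k, ∀ z ∈ Z k, ∀ v : ℤ × ℤ, |v.1| + H ≤ S → |v.2| + H ≤ S →
      (z + Lf a₁ a₂ v ∈ G ↔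
        |v.2| ≤ K ∧ lo ⌊(N : ℝ) * z⌋ v.2 < v.1 ∧ v.1 ≤ hi ⌊(N : ℝ) * z⌋ v.2)) ∧
    {x | cob a₁ G x = 1} = Pat a₁ a₂ N H Z (fun c v => |v.2| ≤ K ∧ v.1 = hi c v.2) ∧
    {x | cob a₁ G x = -1} = Pat a₁ a₂ N H Z (fun c v => |v.2| ≤ K ∧ v.1 = lo c v.2) := by
  have hH' : (2 * H + 2 : ℤ) ≤ S := by exact_mod_cast hH
  have hKH' : (K : ℤ) ≤ H := by exact_mod_cast hKH
  -- the first part
  have main : ∀ k, ∀ z ∈ Z k, ∀ v : ℤ × ℤ, |v.1| + H ≤ S → |v.2| + H ≤ S →
      (z + Lf a₁ a₂ v ∈ G ↔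
        |v.2| ≤ K ∧ lo ⌊(N : ℝ) * z⌋ v.2 < v.1 ∧ v.1 ≤ hi ⌊(N : ℝ) * z⌋ v.2) := by
    intro k z hz v hv1 hv2
    constructor
    · intro hmem
      rw [hG] at hmem
      obtain ⟨k', z', hz', v', hv', hrel, heq⟩ := hmem
      have b1 : |v.1 - v'.1| ≤ S := by
        have := abs_sub v.1 v'.1
        have h1 := hv'.1
        omega
      have b2 : |v.2 - v'.2| ≤ S := by
        have := abs_sub v.2 v'.2
        have h1 := hv'.2
        omega
      obtain ⟨hzz, hvv⟩ := seed_unique_aux hS hz hz' b1 b2 heq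
      subst hzz
      subst hvv
      exact hrel
    · intro hrel
      rw [hG]
      refine ⟨k, z, hz, v, ⟨?_, ?_⟩, hrel, rfl⟩
      · rw [abs_le]
        have h0 := hlo0 ⌊(N : ℝ) * z⌋ v.2
        have h1 := hhi ⌊(N : ℝ) * z⌋ v.2
        have h2 := hrel.2.1
        have h3 := hrel.2.2
        constructor <;> omega
      · exact hrel.1.trans hKH'
  have step : ∀ (z : ℝ) (v : ℤ × ℤ), z + Lf a₁ a₂ v + a₁ = z + Lf a₁ a₂ (v + (1, 0)) := by
    intro z v
    rw [Lf_add']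
    simp [Lf]
    ring
  -- short vectors
  have short : ∀ v : ℤ × ℤ, |v.1| ≤ H + 1 → |v.2| ≤ K → |v.1| + H ≤ S ∧ |v.2| + H ≤ S := by
    intro v h1 h2
    constructor <;> omega
  have cob_one : ∀ x, cob a₁ G x = 1 ↔ x ∈ G ∧ x + a₁ ∉ G := by
    intro x
    unfold cob
    by_cases h1 : x ∈ G <;> by_cases h2 : x + a₁ ∈ G <;> simp [h1, h2]
  have cob_neg : ∀ x, cob a₁ G x = -1 ↔ x ∉ G ∧ x + a₁ ∈ G := by
    intro x
    unfold cob
    by_cases h1 : x ∈ G <;> by_cases h2 : x + a₁ ∈ G <;> simp [h1, h2]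
  refine ⟨main, ?_, ?_⟩
  · ext x
    rw [mem_ofPred_eq, cob_one]
    constructor
    · rintro ⟨hx, hx'⟩
      rw [hG] at hx
      obtain ⟨k, z, hz, v, hv, hrel, rfl⟩ := hx
      have h0 := hlo0 ⌊(N : ℝ) * z⌋ v.2
      have h1 := hhi ⌊(N : ℝ) * z⌋ v.2
      refine ⟨k, z, hz, v, hv, ⟨hrel.1, ?_⟩, rfl⟩
      rw [step] at hx'
      have hs := short (v + (1, 0)) (by
        simp only [Prod.fst_add]
        have := hv.1
        rw [abs_le] at this ⊢
        constructor <;> omega) (by simpa using hrel.1)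
      rw [main k z hz _ hs.1 hs.2] at hx'
      simp only [Prod.fst_add, Prod.snd_add, add_zero] at hx'
      have h2 := hrel.2.1
      have h3 := hrel.2.2
      by_contra hne
      exact hx' ⟨hrel.1, by omega, by omega⟩
    · rintro ⟨k, z, hz, v, hv, hrel, rfl⟩
      have h0 := hlo0 ⌊(N : ℝ) * z⌋ v.2
      have h1 := hhi ⌊(N : ℝ) * z⌋ v.2
      have hl := hlt ⌊(N : ℝ) * z⌋ v.2
      have hv1 := abs_le.mp hv.1
      have hs := short v (by rw [abs_le]; constructor <;> omega) hrel.1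
      have hs' := short (v + (1, 0)) (by
        simp only [Prod.fst_add]
        rw [abs_le]
        constructor <;> omega) (by simpa using hrel.1)
      rw [step, main k z hz _ hs.1 hs.2, main k z hz _ hs'.1 hs'.2]
      simp only [Prod.fst_add, Prod.snd_add, add_zero]
      have h2 := hrel.2
      refine ⟨⟨hrel.1, by omega, by omega⟩, fun h => ?_⟩
      have := h.2.2
      omega
  · ext x
    rw [mem_ofPred_eq, cob_neg]
    constructor
    · rintro ⟨hx, hx'⟩
      rw [hG] at hx'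
      obtain ⟨k, z, hz, v, hv, hrel, heq⟩ := hx'
      have hxe : x = z + Lf a₁ a₂ (v - (1, 0)) := by
        rw [Lf_sub']
        simp [Lf] at heq ⊢
        linarith
      have h0 := hlo0 ⌊(N : ℝ) * z⌋ v.2
      have h1 := hhi ⌊(N : ℝ) * z⌋ v.2
      have h2 := hrel.2.1
      have h3 := hrel.2.2
      have hv1 := abs_le.mp hv.1
      have hs := short (v - (1, 0)) (by
        simp only [Prod.fst_sub]
        rw [abs_le]
        constructor <;> omega) (by simpa using hrel.1)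
      rw [hxe, main k z hz _ hs.1 hs.2] at hx
      simp only [Prod.fst_sub, Prod.snd_sub, sub_zero] at hx
      have hlo : v.1 - 1 = lo ⌊(N : ℝ) * z⌋ v.2 := by
        by_contra hne
        exact hx ⟨hrel.1, by omega, by omega⟩
      refine ⟨k, z, hz, v - (1, 0), ⟨?_, ?_⟩, ⟨?_, ?_⟩, hxe⟩
      · simp only [Prod.fst_sub]
        rw [abs_le]
        constructor <;> omega
      · simpa using hv.2
      · simpa using hrel.1
      · simpa using hlo
    · rintro ⟨k, z, hz, v, hv, hrel, rfl⟩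
      have h0 := hlo0 ⌊(N : ℝ) * z⌋ v.2
      have h1 := hhi ⌊(N : ℝ) * z⌋ v.2
      have hl := hlt ⌊(N : ℝ) * z⌋ v.2
      have h2 := hrel.2
      have hv1 := abs_le.mp hv.1
      have hs := short v (by rw [abs_le]; constructor <;> omega) hrel.1
      have hs' := short (v + (1, 0)) (by
        simp only [Prod.fst_add]
        rw [abs_le]
        constructor <;> omega) (by simpa using hrel.1)
      rw [step, main k z hz _ hs.1 hs.2, main k z hz _ hs'.1 hs'.2]
      simp only [Prod.fst_add, Prod.snd_add, add_zero]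
      refine ⟨fun h => ?_, hrel.1, by omega, by omega⟩
      have := h.2.1
      omega

end GB
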